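import Pool.Agent.H371.SB.Defs
import Pool.Graph.R_seed8.W656.VB6

/-!
Base change with arbitrary denominators: port of the base change theorem of the library
(`W656/VB3`, `VB5`, `VB6`), with the least common multiple replaced by any denominator.
-/

set_option autoImplicit false
set_option linter.unusedSectionVars false

open scoped InnerProductSpace ENNReal
open Filter Topology

namespace Pool.Agent.H371.SB.SB3x

open Pool.Agent.H80R2
open Pool.Agent.H80R2.BC (L2 GMat vdim IsTr LInv Equi act kerA dk pt vals TorDiv Coef AtR Generic)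
open Pool.Agent.H812R3
open Pool.Agent.W656.VA (Val sq coef_sq sq_le sq_inv fd_sq int_of_powers break_point val_of coef_ct
  fd op sc ct)
open Pool.Agent.W656 Pool.Agent.W656.VA

variable {ι κ κ' μ ν G : Type} [Group G] [Fintype ι] [Fintype κ] [Fintype κ'] [Fintype μ]
  [Fintype ν]

/-- **Integrality of eigenvalue dimensions.** -/
theorem stage2x (C : (G : Type) → [Group G] → ℕ → Prop)
    (hprod : ∀ (G H : Type) [Group G] [Group H] (d e : ℕ), C G d → C H e → C (G × H) (d * e))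
    (hfree : ∀ (G : Type) [Group G] (m d : ℕ), C G d → C (Monoid.Coprod G (FreeGroup (Fin m))) d)
    (R : Subring ℂ)
    (hR : ∀ (G : Type) [Group G] (d : ℕ), C G d → ∀ v : ℝ, Val R G v →
      ∃ z : ℤ, (d : ℝ) * v = z)
    {d : ℕ} (hG : C G d) (A : GMat κ (ι × μ) G) (hA : Coef R A)
    {Φ0 : Submodule ℂ (μ → ℂ)} (hΦ0 : kerA A ≤ pt Φ0) (T : (μ → ℂ) →ₗ[ℂ] (μ → ℂ))
    (hT : ∀ x ∈ kerA A, op (sc ι G T) x ∈ kerA A) {ψ : μ → ℂ} (hψ0 : ψ ≠ 0)
    (hker : ∀ φ ∈ Φ0, T φ = 0 → φ ∈ Submodule.span ℂ {ψ}) (hψT : T ψ = 0)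
    (hs : 0 < fd A (Submodule.span ℂ {ψ})) :
    ∃ z : ℤ, (d : ℝ) * fd A (Submodule.span ℂ {ψ}) = z := by
  have key : ∀ k : ℕ, ∃ (H : Type) (_ : Group H) (ι' κ' : Type) (_ : Fintype ι') (_ : Fintype κ')
      (A' : GMat κ' (ι' × μ) H) (e : ℕ), C H e ∧ Coef R A' ∧ kerA A' ≤ pt Φ0 ∧
      (∀ x ∈ kerA A', op (sc ι' H T) x ∈ kerA A') ∧ 0 < fd A' (Submodule.span ℂ {ψ}) ∧
      (e : ℝ) * fd A' (Submodule.span ℂ {ψ}) =
        ((d : ℝ) * fd A (Submodule.span ℂ {ψ})) ^ (2 ^ k) := by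
    intro k
    induction k with
    | zero =>
      exact ⟨G, inferInstance, ι, κ, inferInstance, inferInstance, A, d, hG, hA, hΦ0, hT, hs,
        by simp⟩
    | succ k ih =>
      obtain ⟨H, _, ι', κ', _, _, A', e, h1, h3, h4, h5, h6, h7⟩ := ih
      refine ⟨H × H, inferInstance, ι' × ι', (κ' × ι') ⊕ (ι' × κ'), inferInstance, inferInstance,
        sq A', e * e, hprod H H e e h1 h1, coef_sq h3, sq_le A' h4, sq_inv A' T h5, ?_, ?_⟩
      · rw [fd_sq A' hψ0]
        positivity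
      · rw [fd_sq A' hψ0, pow_succ 2 k, pow_mul, ← h7]
        push_cast
        ring
  apply int_of_powers (M := Fintype.card μ)
  intro k
  obtain ⟨H, _, ι', κ', _, _, A', e, h1, h3, h4, h5, h6, h7⟩ := key k
  obtain ⟨m, hm1, hm2, z, hz⟩ := break_point (A := A') (d := e) (by
    intro N j hN
    exact hR _ e (hfree H _ e h1) _ (val_of _ (coef_ct N j h3)))
    h4 T h5 hψ0 hker hψT h6
  refine ⟨m, hm1, hm2, z, ?_⟩
  rw [← h7, ← hz]
  ring

/-- **Stage 1.** -/
theorem stage1x (C : (G : Type) → [Group G] → ℕ → Prop)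
    (hpos : ∀ (G : Type) [Group G] (d : ℕ), C G d → 0 < d)
    (hprod : ∀ (G H : Type) [Group G] [Group H] (d e : ℕ), C G d → C H e → C (G × H) (d * e))
    (hfree : ∀ (G : Type) [Group G] (m d : ℕ), C G d → C (Monoid.Coprod G (FreeGroup (Fin m))) d)
    (R : Subring ℂ)
    (hR : ∀ (G : Type) [Group G] (d : ℕ), C G d → ∀ v : ℝ, Val R G v →
      ∃ z : ℤ, (d : ℝ) * v = z)
    {d : ℕ} (hG : C G d) (Q0 Q1 : GMat κ ι G) (hQ0 : Coef R Q0) (hQ1 : Coef R Q1)
    (z : ℂ) {N j : ℕ} (hN : 0 < N) (hf : vdim (kerA Q1) < (j : ℝ) / N)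
    (hz : (j : ℝ) / N < kz Q0 Q1 z) : ∃ n : ℤ, (d : ℝ) * (N * kz Q0 Q1 z - j) = n := by
  classical
  have hN' : (0 : ℝ) < N := by exact_mod_cast hN
  set θ : ℝ := (j : ℝ) / N with hθ
  have hjθ : (j : ℝ) = N * θ := by rw [hθ]; field_simp
  let W : (l : ℕ) → GMat (κ × Fin l) (ι × Fin (l + 1)) G := fun l => BC.Tm Q0 Q1 l
  -- top maximizers
  have hF : ∀ l, ∃ Φ, IsMx (W l) θ Φ ∧ ∀ Ψ, IsMx (W l) θ Ψ → Ψ ≤ Φ :=
    fun l => top_exists ⟨_, (mx_vals (W l) N j hN).1⟩
  choose F hF1 hF2 using hF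
  let M : ℕ → ℝ := fun l => fd (W l) (F l) - θ * Module.finrank ℂ (F l)
  have hM : ∀ l, (N : ℝ) * M l = vdim (kerA (ct N j (W l))) := by
    intro l
    rw [← mx_value hN (hF1 l)]
    show (N : ℝ) * (fd (W l) (F l) - θ * Module.finrank ℂ (F l)) = _
    rw [hjθ]
    ring
  have hint : ∀ l, ∃ n : ℕ, (d : ℝ) * (N * M l) = n := by
    intro l
    obtain ⟨n, hn⟩ := hR _ d (hfree G (ctm ι N j) d hG) _
      (val_of _ (coef_ct N j (coef_Tm hQ0 hQ1 l)))
    have h1 : (0 : ℝ) ≤ (d : ℝ) * vdim (kerA (ct N j (W l))) := by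
      have := vdim_nonneg (kerA (ct N j (W l)))
      positivity
    have h2 : (0 : ℝ) ≤ n := by rw [← hn]; exact h1
    have h3 : 0 ≤ n := by exact_mod_cast h2
    refine ⟨n.toNat, ?_⟩
    rw [hM, hn]
    have : ((n.toNat : ℤ) : ℝ) = n := by rw [Int.toNat_of_nonneg h3]
    exact_mod_cast this.symm
  choose n hn using hint
  have hlast : ∀ l, (Pi.single (Fin.last (l + 1)) 1 : Fin (l + 2) → ℂ) ≠ 0 := by
    intro l
    simp
  have hstep : ∀ l (Φ : Submodule ℂ (Fin (l + 2) → ℂ)),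
      fd (W (l + 1)) Φ - θ * Module.finrank ℂ Φ ≤ M l ∧
      (M l ≤ fd (W (l + 1)) Φ - θ * Module.finrank ℂ Φ →
        (∀ φ ∈ Φ, r0 l φ = 0 → φ = 0) ∧ IsMx (W l) θ (Φ.map (r0 l)) ∧
        Module.finrank ℂ (Φ.map (r0 l)) = Module.finrank ℂ Φ ∧
        fd (W (l + 1)) Φ = fd (W l) (Φ.map (r0 l))) := by
    intro l Φ
    refine mx_step (A := W (l + 1)) (B := W l) (θ := θ) (L := r0 l) ?_ (hlast l) (ker_r0 l) ?_
      (hF1 l)
    · intro x hx
      have := window Q0 Q1 l 1 0 x hx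
      rwa [rr_one_zero] at this
    · show fd (BC.Tm Q0 Q1 (l + 1)) _ < θ
      rw [fd_last]
      exact hf
  have hmono : ∀ l, M (l + 1) ≤ M l := fun l => (hstep l (F (l + 1))).1
  have hd0 : (0 : ℝ) < d := by exact_mod_cast hpos G d hG
  have hnmono : ∀ l, n (l + 1) ≤ n l := by
    intro l
    have : (n (l + 1) : ℝ) ≤ n l := by
      rw [← hn, ← hn]
      have := hmono l
      gcongr
    exact_mod_cast this
  have hanti : Antitone n := antitone_nat_of_succ_le hnmono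
  -- eventually constant
  obtain ⟨l0, hl0⟩ : ∃ l0, ∀ l, n l0 ≤ n l := by
    have hex : ∃ a, ∃ l, n l = a := ⟨_, 0, rfl⟩
    obtain ⟨l0, hl0⟩ := Nat.find_spec hex
    refine ⟨l0, fun l => ?_⟩
    rw [hl0]
    exact Nat.find_min' hex ⟨l, rfl⟩
  have hconst : ∀ l, l0 ≤ l → M l = M (l + 1) := by
    intro l hl
    have h1 : n l = n (l + 1) :=
      le_antisymm ((hanti hl).trans (hl0 (l + 1))) (hnmono l)
    have h2 : (d : ℝ) * (N * M l) = d * (N * M (l + 1)) := by rw [hn, hn, h1]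
    have h3 := mul_left_cancel₀ hd0.ne' h2
    exact mul_left_cancel₀ hN'.ne' h3
  have hinfo : ∀ l, l0 ≤ l → (∀ φ ∈ F (l + 1), r0 l φ = 0 → φ = 0) ∧
      IsMx (W l) θ ((F (l + 1)).map (r0 l)) ∧
      Module.finrank ℂ ((F (l + 1)).map (r0 l)) = Module.finrank ℂ (F (l + 1)) ∧
      fd (W (l + 1)) (F (l + 1)) = fd (W l) ((F (l + 1)).map (r0 l)) :=
    fun l hl => (hstep l (F (l + 1))).2 (hconst l hl).le
  -- the ranks stabilize
  obtain ⟨l', hl'0, hl'⟩ : ∃ l', l0 ≤ l' ∧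
      Module.finrank ℂ (F (l' + 1)) ≤ Module.finrank ℂ (F (l' + 1 + 1)) := by
    have hex : ∃ a, ∃ l, l0 ≤ l ∧ Module.finrank ℂ (F (l + 1)) = a := ⟨_, l0, le_rfl, rfl⟩
    obtain ⟨l', hl'0, hl'⟩ := Nat.find_spec hex
    refine ⟨l', hl'0, ?_⟩
    rw [hl']
    exact Nat.find_min' hex ⟨l' + 1, by omega, rfl⟩
  set l := l' + 1 with hl
  obtain ⟨hi1, hi2, hi3, hi4⟩ := hinfo l (by omega)
  have hmap : (F (l + 1)).map (r0 l) = F l :=
    Submodule.eq_of_le_of_finrank_le (hF2 l _ hi2) (by omega)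
  rw [hmap] at hi4
  -- inverse of the restriction
  obtain ⟨σ, hσ⟩ : ∃ σ : (Fin (l + 1) → ℂ) →ₗ[ℂ] (Fin (l + 2) → ℂ),
      ∀ φ ∈ F l, σ φ ∈ F (l + 1) ∧ r0 l (σ φ) = φ := by
    let f : F (l + 1) →ₗ[ℂ] F l := (r0 l).restrict (p := F (l + 1)) (q := F l) (by
      intro φ hφ
      rw [← hmap]
      exact Submodule.mem_map_of_mem hφ)
    have hf : Function.Surjective f := by
      rintro ⟨φ, hφ⟩
      have h1 := hφ
      rw [← hmap] at h1
      obtain ⟨φ', h2, h3⟩ := h1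
      exact ⟨⟨φ', h2⟩, Subtype.ext h3⟩
    obtain ⟨g, hg⟩ := f.exists_rightInverse_of_surjective (LinearMap.range_eq_top.2 hf)
    obtain ⟨σ, hσ⟩ := LinearMap.exists_extend ((F (l + 1)).subtype ∘ₗ g)
    refine ⟨σ, fun φ hφ => ?_⟩
    have h1 : σ φ = (g ⟨φ, hφ⟩ : Fin (l + 2) → ℂ) := by
      have := LinearMap.congr_fun hσ ⟨φ, hφ⟩
      exact this
    have h2 := LinearMap.congr_fun hg ⟨φ, hφ⟩
    refine ⟨h1 ▸ (g ⟨φ, hφ⟩).2, ?_⟩
    rw [h1]
    exact congrArg Subtype.val h2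
  have hσ' : ∀ φ ∈ F (l + 1), σ (r0 l φ) = φ := by
    intro φ hφ
    have h1 : r0 l φ ∈ F l := by
      rw [← hmap]
      exact Submodule.mem_map_of_mem hφ
    obtain ⟨h2, h3⟩ := hσ _ h1
    have h4 := hi1 (σ (r0 l φ) - φ) (Submodule.sub_mem _ h2 hφ) (by rw [map_sub, h3, sub_self])
    exact sub_eq_zero.1 h4
  -- `σ` maps the kernel at level `l` to the kernel at level `l + 1`
  have hext : ∀ x ∈ kerA (W l) ⊓ (pt (F l) : Submodule ℂ (L2 ((ι × Fin (l + 1)) × G))),
      op (sc ι G σ) x ∈ kerA (W (l + 1)) := by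
    set K : Submodule ℂ (L2 ((ι × Fin (l + 1)) × G)) := kerA (W l) ⊓ pt (F l) with hK
    set K' : Submodule ℂ (L2 ((ι × Fin (l + 2)) × G)) := kerA (W (l + 1)) ⊓ pt (F (l + 1))
      with hK'
    set K'' : Submodule ℂ (L2 ((ι × Fin (l + 1)) × G)) :=
      K ⊓ K'.comap (op (sc ι G σ) : L2 ((ι × Fin (l + 1)) × G) →ₗ[ℂ] _) with hK''
    have hKc : IsClosed (K : Set (L2 ((ι × Fin (l + 1)) × G))) := isClosed_fd (W l) (F l)
    have hK'c : IsClosed (K' : Set (L2 ((ι × Fin (l + 2)) × G))) :=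
      isClosed_fd (W (l + 1)) (F (l + 1))
    have hKi : LInv K := linv_fd (W l) (F l)
    have hK'i : LInv K' := linv_fd (W (l + 1)) (F (l + 1))
    have hK''c : IsClosed (K'' : Set (L2 ((ι × Fin (l + 1)) × G))) :=
      hKc.inter (hK'c.preimage (op (sc ι G σ)).continuous)
    have hK''i : LInv K'' := by
      apply linv_of
      intro g x hx
      refine ⟨linv_lt hKi _ hx.1, ?_⟩
      show op (sc ι G σ) (lt _ g x) ∈ K'
      rw [equi_lt (equi_op _)]
      exact linv_lt hK'i _ hx.2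
    have hv : vdim K ≤ vdim K'' := by
      have h1 : vdim K = vdim K' := hi4.symm
      rw [h1]
      refine vdim_inj_le hK'c hK'i (op (sc ι G (r0 l))) (equi_op _) hK''c ?_ ?_
      · intro x hx
        have hx1 : op (sc ι G σ) (op (sc ι G (r0 l)) x) = x := by
          ext ⟨⟨p, i⟩, g⟩
          rw [op_sc]
          have : (fun i => op (sc ι G (r0 l)) x ((p, i), g)) = r0 l (fun i => x ((p, i), g)) := by
            funext i
            rw [op_sc]
          rw [this, hσ' _ (hx.2 p g)]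
        refine ⟨⟨?_, ?_⟩, ?_⟩
        · have := window Q0 Q1 l 1 0 x hx.1
          rwa [rr_one_zero] at this
        · intro p g
          have : (fun i => op (sc ι G (r0 l)) x ((p, i), g)) = r0 l (fun i => x ((p, i), g)) := by
            funext i
            rw [op_sc]
          show (fun i => op (sc ι G (r0 l)) x ((p, i), g)) ∈ F l
          rw [this, ← hmap]
          exact Submodule.mem_map_of_mem (hx.2 p g)
        · show op (sc ι G σ) (op (sc ι G (r0 l)) x) ∈ K'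
          rw [hx1]
          exact hx
      · intro x hx h0
        have hx1 : op (sc ι G σ) (op (sc ι G (r0 l)) x) = x := by
          ext ⟨⟨p, i⟩, g⟩
          rw [op_sc]
          have : (fun i => op (sc ι G (r0 l)) x ((p, i), g)) = r0 l (fun i => x ((p, i), g)) := by
            funext i
            rw [op_sc]
          rw [this, hσ' _ (hx.2 p g)]
        rw [← hx1, h0, map_zero]
    have heq : K'' = K := eq_of_vdim hK''c hK''i hKc hKi inf_le_left hv
    intro x hx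
    rw [← heq] at hx
    exact hx.2.1
  -- the operator
  set T : (Fin (l + 1) → ℂ) →ₗ[ℂ] (Fin (l + 1) → ℂ) := (rr l (-z) 1) ∘ₗ σ with hT
  have hTk : ∀ x ∈ kerA (W l) ⊓ (pt (F l) : Submodule ℂ (L2 ((ι × Fin (l + 1)) × G))),
      op (sc ι G T) x ∈ kerA (W l) := by
    intro x hx
    rw [hT, ← op_sc_comp]
    exact window Q0 Q1 l (-z) 1 _ (hext x hx)
  have hctle : kerA (ct N j (W l)) ≤ pt (F l) :=
    (le_pt_vals _).trans (pt_mono (hF2 l _ (mx_vals (W l) N j hN).1))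
  have hct := ct_inv N j (W l) (F l) T hTk hctle
  -- the geometric windows
  have hg1 : geo z (l + 1) ∈ F (l + 1) := by
    refine mem_of_mx (hF1 (l + 1)) (geo_ne z (l + 1)) ?_
    show θ < fd (BC.Tm Q0 Q1 (l + 1)) _
    rw [fd_geo]
    exact hz
  have hg2 : σ (geo z l) = geo z (l + 1) := by
    rw [← r0_geo]
    exact hσ' _ hg1
  have hgl : fd (W l) (Submodule.span ℂ {geo z l}) = kz Q0 Q1 z := fd_geo Q0 Q1 z l'
  have hrank1 : Module.finrank ℂ (Submodule.span ℂ {geo z l}) = 1 :=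
    finrank_span_singleton (geo_ne z l)
  have hge := ct_ge N j (W l) (Submodule.span ℂ {geo z l})
  rw [hgl, hrank1] at hge
  have hpos : 0 < (N : ℝ) * kz Q0 Q1 z - j := by
    rw [div_lt_iff₀ hN'] at hz
    linarith
  have hge' : (N : ℝ) * kz Q0 Q1 z - j ≤ fd (ct N j (W l)) (Submodule.span ℂ {geo z l}) := by
    simpa using hge
  have hval : fd (ct N j (W l)) (Submodule.span ℂ {geo z l}) = N * kz Q0 Q1 z - j := by
    have h1 := ct_eq N j (W l) (Submodule.span ℂ {geo z l})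
    have h2 := vals_ct_le N j (W l) (Submodule.span ℂ {geo z l})
    set V := vals (kerA (ct N j (W l)) ⊓ pt (Submodule.span ℂ {geo z l})) with hV
    have h3 := Submodule.finrank_mono h2
    rw [hrank1] at h3
    rcases Nat.le_one_iff_eq_zero_or_eq_one.1 h3 with h4 | h4
    · have h5 : V = ⊥ := Submodule.finrank_eq_zero.1 h4
      rw [h5, fd_bot, finrank_bot] at h1
      simp only [mul_zero, Nat.cast_zero, sub_zero] at h1
      linarith
    · have h5 : V = Submodule.span ℂ {geo z l} :=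
        Submodule.eq_of_le_of_finrank_le h2 (by omega)
      rw [h1, h5, hgl, hrank1]
      simp
  have hfin := stage2x C hprod hfree R hR (hfree G (ctm ι N j) d hG)
    (ct N j (W l)) (coef_ct N j (coef_Tm hQ0 hQ1 l)) hctle T hct (geo_ne z l)
    (by
      intro φ hφ h0
      have h1 := ker_rr l z (σ φ) h0
      have h2 := (hσ φ hφ).2
      rw [h1, map_smul, r0_geo] at h2
      rw [Submodule.mem_span_singleton]
      exact ⟨_, h2⟩)
    (by
      show rr l (-z) 1 (σ (geo z l)) = 0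
      rw [hg2, rr_geo])
    (by rw [hval]; exact hpos)
  rw [hval] at hfin
  exact hfin

/-- **Integrality along a pencil.** -/
theorem pencil_intx (C : (G : Type) → [Group G] → ℕ → Prop)
    (hpos : ∀ (G : Type) [Group G] (d : ℕ), C G d → 0 < d)
    (hprod : ∀ (G H : Type) [Group G] [Group H] (d e : ℕ), C G d → C H e → C (G × H) (d * e))
    (hfree : ∀ (G : Type) [Group G] (m d : ℕ), C G d → C (Monoid.Coprod G (FreeGroup (Fin m))) d)
    (R : Subring ℂ)
    (hR : ∀ (G : Type) [Group G] (d : ℕ), C G d → ∀ v : ℝ, Val R G v →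
      ∃ z : ℤ, (d : ℝ) * v = z)
    {d : ℕ} (hG : C G d) (P0 P1 : GMat κ ι G) (hP0 : Coef R P0) (hP1 : Coef R P1)
    (z : ℂ) : ∃ n : ℤ, (d : ℝ) * kz P0 P1 z = n := by
  by_contra hno
  push Not at hno
  have hd0 : (0 : ℝ) < d := by exact_mod_cast hpos G d hG
  have hv0 : 0 ≤ kz P0 P1 z := vdim_nonneg _
  -- an integer point with a smaller kernel
  have h1 : ∃ a : ℤ, (a : ℂ) ≠ z ∧ kz P0 P1 a < kz P0 P1 z := by
    by_contra hc
    push Not at hc
    set b0 : ℝ := (⌈(d : ℝ) * kz P0 P1 z⌉ : ℝ) / d with hb0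
    have h2 : ∀ a : ℤ, (a : ℂ) ≠ z → b0 ≤ kz P0 P1 a := by
      intro a ha
      have h3 := hc a ha
      obtain ⟨n, hn⟩ := hR G d hG _ (val_of _ (coef_pen hP0 hP1 (a := (a : ℂ)) (by
        exact intCast_mem R a)))
      have h4 : (d : ℝ) * kz P0 P1 z ≤ n := by
        rw [← hn]
        unfold kz at h3 ⊢
        gcongr
      have h5 : ⌈(d : ℝ) * kz P0 P1 z⌉ ≤ n := Int.ceil_le.2 h4
      rw [hb0, div_le_iff₀ hd0]
      have h6 : (⌈(d : ℝ) * kz P0 P1 z⌉ : ℝ) ≤ n := by exact_mod_cast h5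
      unfold kz at h6 ⊢
      linarith
    have h3 : {a : ℂ | b0 ≤ kz P0 P1 a}.Infinite := by
      have h4 : (Set.range (fun n : ℤ => (n : ℂ)) \ {z}).Infinite :=
        (Set.infinite_range_of_injective Int.cast_injective).sdiff (Set.finite_singleton z)
      refine h4.mono ?_
      rintro _ ⟨⟨a, rfl⟩, ha⟩
      exact h2 a (fun h => ha h)
    have h4 := semicont P0 P1 b0 h3 z
    rw [hb0, div_le_iff₀ hd0] at h4
    have h5 := Int.le_ceil ((d : ℝ) * kz P0 P1 z)
    exact hno _ (le_antisymm h5 (by linarith))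
  obtain ⟨a, ha, hlt⟩ := h1
  have hza : z - a ≠ 0 := sub_ne_zero.2 (Ne.symm ha)
  have hmem : (a : ℂ) ∈ R := intCast_mem R a
  obtain ⟨n, hn⟩ := int_of_interval (a := kz P0 P1 a) (b := kz P0 P1 z) (f := kz P0 P1 z)
    (d := d) (r := 1) (vdim_nonneg _) hlt (by
      intro N j hN h1 h2
      have h3 := stage1x C hpos hprod hfree R hR hG P1 (BC.pen P0 P1 a) hP1
        (coef_pen hP0 hP1 hmem) (z - a)⁻¹ hN h1 (by rw [kz_move _ _ _ _ hza]; exact h2)
      rw [kz_move _ _ _ _ hza] at h3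
      simpa using h3)
  exact hno n hn

/-- adjoining one element -/
theorem adjoin_stepx (C : (G : Type) → [Group G] → ℕ → Prop)
    (hpos : ∀ (G : Type) [Group G] (d : ℕ), C G d → 0 < d)
    (hprod : ∀ (G H : Type) [Group G] [Group H] (d e : ℕ), C G d → C H e → C (G × H) (d * e))
    (hfree : ∀ (G : Type) [Group G] (m d : ℕ), C G d → C (Monoid.Coprod G (FreeGroup (Fin m))) d)
    (R : Subring ℂ)
    (hR : ∀ (G : Type) [Group G] (d : ℕ), C G d → ∀ v : ℝ, Val R G v →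
      ∃ z : ℤ, (d : ℝ) * v = z) (z : ℂ) :
    ∀ (G : Type) [Group G] (d : ℕ), C G d → ∀ v : ℝ,
      Val (Polynomial.eval₂RingHom R.subtype z).range G v → ∃ n : ℤ, (d : ℝ) * v = n := by
  classical
  intro G _ d hG v hv
  obtain ⟨m, n, A, hA, rfl⟩ := hv
  -- the polynomials
  have h1 : ∀ (k : Fin n) (p : Fin m) (g : G), ∃ q : Polynomial R,
      q.eval₂ R.subtype z = A k p g ∧ (A k p g = 0 → q = 0) := by
    intro k p g
    by_cases h0 : A k p g = 0
    · exact ⟨0, by rw [h0, Polynomial.eval₂_zero], fun _ => rfl⟩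
    · obtain ⟨q, hq⟩ := hA k p g
      exact ⟨q, hq, fun h => absurd h h0⟩
  choose q hq1 hq2 using h1
  set D : ℕ := ∑ k, ∑ p, ∑ g ∈ (A k p).support, (q k p g).natDegree with hD
  have hdeg : ∀ k p g, (q k p g).natDegree < D + 1 := by
    intro k p g
    by_cases h0 : A k p g = 0
    · rw [hq2 k p g h0]
      simp
    · have h2 : g ∈ (A k p).support := Finsupp.mem_support_iff.2 h0
      have e1 := Finset.single_le_sum (f := fun g => (q k p g).natDegree)
        (fun _ _ => Nat.zero_le _) h2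
      have e2 := Finset.single_le_sum
        (f := fun p => ∑ g ∈ (A k p).support, (q k p g).natDegree)
        (fun _ _ => Nat.zero_le _) (Finset.mem_univ p)
      have e3 := Finset.single_le_sum
        (f := fun k => ∑ p, ∑ g ∈ (A k p).support, (q k p g).natDegree)
        (fun _ _ => Nat.zero_le _) (Finset.mem_univ k)
      exact Nat.lt_succ_of_le ((e1.trans e2).trans e3)
  let B : GMat (Fin n) (Fin m × Fin (D + 1)) G := fun k p =>
    Finsupp.onFinset (A k p.1).support (fun g => (((q k p.1 g).coeff p.2 : R) : ℂ)) (by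
      intro g hg
      rw [Finsupp.mem_support_iff]
      intro h0
      apply hg
      rw [hq2 k p.1 g h0]
      simp)
  have hB : Coef R B := by
    intro k p g
    exact ((q k p.1 g).coeff p.2).2
  have hev : ev (geo z D) B = A := by
    funext k p
    ext g
    unfold ev
    rw [Finsupp.finsetSum_apply, ← hq1 k p g, Polynomial.eval₂_eq_sum_range' _ (hdeg k p g),
      Finset.sum_range]
    refine Finset.sum_congr rfl fun i _ => ?_
    rw [Finsupp.smul_apply, smul_eq_mul, mul_comm]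
    rfl
  obtain ⟨r, hr⟩ := pencil_intx C hpos hprod hfree R hR hG (cp0 B) (cp1 (Fin n) (Fin m) G D)
    (coef_cp0 hB) (coef_cp1 D) z
  rw [kz_cp, hev] at hr
  exact ⟨r, hr⟩

end Pool.Agent.H371.SB.SB3x

namespace Pool.Agent.H371.SB

open Pool.Agent.H371.SA
open Pool.Agent.H80R2.BC (L2 GMat vdim kerA Coef act)
open Pool.Agent.W656.VA
open Pool.Agent.H371.SB.SB3x (adjoin_stepx)

/-- **Base change**: integrality passes from a subring of `ℂ` to `ℂ`. -/
theorem base_change' (C : (G : Type) → [Group G] → ℕ → Prop)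
    (hpos : ∀ (G : Type) [Group G] (d : ℕ), C G d → 0 < d)
    (hprod : ∀ (G H : Type) [Group G] [Group H] (d e : ℕ), C G d → C H e → C (G × H) (d * e))
    (hfree : ∀ (G : Type) [Group G] (m d : ℕ), C G d → C (Monoid.Coprod G (FreeGroup (Fin m))) d)
    (R : Subring ℂ)
    (hR : ∀ (G : Type) [Group G] (d : ℕ), C G d → ∀ v : ℝ, Val R G v →
      ∃ z : ℤ, (d : ℝ) * v = z) (R' : Subring ℂ) :
    ∀ (G : Type) [Group G] (d : ℕ), C G d → ∀ v : ℝ, Val R' G v →
      ∃ z : ℤ, (d : ℝ) * v = z := by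
  classical
  have key : ∀ S : Finset ℂ, ∃ R1 : Subring ℂ, (S : Set ℂ) ⊆ R1 ∧
      ∀ (G : Type) [Group G] (d : ℕ), C G d → ∀ v : ℝ, Val R1 G v →
        ∃ z : ℤ, (d : ℝ) * v = z := by
    intro S
    induction S using Finset.induction_on with
    | empty => exact ⟨R, by simp, hR⟩
    | insert a S _ ih =>
      obtain ⟨R1, h1, h2⟩ := ih
      refine ⟨(Polynomial.eval₂RingHom R1.subtype a).range, ?_,
        adjoin_stepx C hpos hprod hfree R1 h2 a⟩
      intro x hx
      rw [Finset.coe_insert, Set.mem_insert_iff] at hx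
      rcases hx with rfl | hx
      · exact ⟨Polynomial.X, by simp⟩
      · exact ⟨Polynomial.C ⟨x, h1 hx⟩, by simp⟩
  intro G _ d hG v hv
  obtain ⟨m, n, A, hA, rfl⟩ := hv
  obtain ⟨R1, h1, h2⟩ := key (Finset.univ.biUnion fun k => Finset.univ.biUnion fun p =>
    (A k p).support.image (A k p))
  refine h2 G d hG _ ⟨m, n, A, ?_, rfl⟩
  intro k p g
  by_cases h0 : A k p g = 0
  · rw [h0]
    exact R1.zero_mem
  · apply h1
    simp only [Finset.coe_biUnion, Finset.coe_univ, Set.mem_iUnion, Finset.coe_image,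
      Set.mem_image, Finset.mem_coe]
    exact ⟨k, trivial, p, trivial, g, Finsupp.mem_support_iff.2 h0, rfl⟩

end Pool.Agent.H371.SB
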